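import Mathlib

/-!
A two-level application of the Ruzsa-Szemeredi theorem: a dense linear tripartite 3-graph whose
vertices are split into blocks of bounded size, such that the edges meet only few triples of
blocks, contains the 3 x 3 grid.
-/

set_option autoImplicit false

open Finset

namespace Pool.Agent.MP_f6f4b2_co

open SimpleGraph TripartiteFromTriangles

/-- Explicit-disjoint families have at most `n^2` elements. -/
theorem card_le_sq_of_explicitDisjoint {α β γ : Type*} [Fintype α] [Fintype β] [Fintype γ]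
    [DecidableEq α] [DecidableEq β] [DecidableEq γ]
    (T : Finset (α × β × γ)) (hT : ExplicitDisjoint T) :
    #T ≤ Fintype.card α * Fintype.card β := by
  classical
  have h : #T ≤ #(Finset.univ : Finset (α × β)) := by
    refine Finset.card_le_card_of_injOn (fun x => (x.1, x.2.1)) (fun _ _ => Finset.mem_coe.2 (Finset.mem_univ _)) ?_
    rintro ⟨a, b, c⟩ hx ⟨a', b', c'⟩ hy hxy
    simp only [Prod.mk.injEq] at hxy
    obtain ⟨rfl, rfl⟩ := hxy
    have := hT.inj₂ hx hy
    subst this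
    rfl
  simpa [Finset.card_univ, Fintype.card_prod] using h

/-- The Ruzsa-Szemeredi theorem in the form used here: every dense linear tripartite family of
triples contains a triangle of three different triples. -/
theorem exists_accidental (ε : ℝ) (hε : 0 < ε) : ∃ N : ℕ, ∀ n : ℕ, N ≤ n →
    ∀ T : Finset (Fin n × Fin n × Fin n), ExplicitDisjoint T → ε * (n : ℝ) ^ 2 ≤ (#T : ℝ) →
    ∃ a a' b b' c c' : Fin n, a ≠ a' ∧ b ≠ b' ∧ c ≠ c' ∧
      (a', b, c) ∈ T ∧ (a, b', c) ∈ T ∧ (a, b, c') ∈ T := by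
  classical
  have hδ : 0 < triangleRemovalBound (ε / 9) := triangleRemovalBound_pos (by positivity)
  obtain ⟨N, hN⟩ := exists_nat_gt (1 / (27 * triangleRemovalBound (ε / 9)))
  refine ⟨N + 1, fun n hn T hT hcard => ?_⟩
  by_contra hcon
  have hna : NoAccidental T := by
    refine ⟨fun a a' b b' c c' h1 h2 h3 => ?_⟩
    by_contra hne
    push Not at hne
    exact hcon ⟨a, a', b, b', c, c', hne.1, hne.2.1, hne.2.2, h1, h2, h3⟩
  have hfar : (graph T).FarFromTriangleFree (ε / 9) := by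
    apply TripartiteFromTriangles.farFromTriangleFree
    have h9 : (((Fintype.card (Fin n) + Fintype.card (Fin n) + Fintype.card (Fin n)) ^ 2 : ℕ) : ℝ)
        = 9 * (n : ℝ) ^ 2 := by
      simp only [Fintype.card_fin]
      push_cast
      ring
    rw [h9]
    calc ε / 9 * (9 * (n : ℝ) ^ 2) = ε * (n : ℝ) ^ 2 := by ring
      _ ≤ _ := hcard
  have hle := hfar.le_card_cliqueFinset
  rw [TripartiteFromTriangles.card_triangles] at hle
  have hsq : (#T : ℝ) ≤ (n : ℝ) ^ 2 := by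
    have := card_le_sq_of_explicitDisjoint T hT
    simp only [Fintype.card_fin] at this
    have h2 : (#T : ℝ) ≤ ((n * n : ℕ) : ℝ) := by exact_mod_cast this
    push_cast at h2
    nlinarith
  have hcardV : (Fintype.card (Fin n ⊕ Fin n ⊕ Fin n) : ℝ) = 3 * n := by
    simp only [Fintype.card_sum, Fintype.card_fin]
    push_cast
    ring
  rw [hcardV] at hle
  have hn0 : (0 : ℝ) < n := by
    have : 0 < n := by omega
    exact_mod_cast this
  have h1 : triangleRemovalBound (ε / 9) * (27 * (n : ℝ)) ≤ 1 := by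
    have h2 : triangleRemovalBound (ε / 9) * (3 * (n : ℝ)) ^ 3 ≤ (n : ℝ) ^ 2 := hle.trans hsq
    have h3 : triangleRemovalBound (ε / 9) * (27 * (n : ℝ)) * (n : ℝ) ^ 2 ≤ 1 * (n : ℝ) ^ 2 := by
      nlinarith
    exact le_of_mul_le_mul_right h3 (by positivity)
  have h4 : (N : ℝ) < n := by
    have : N < n := by omega
    exact_mod_cast this
  have h5 : 1 / (27 * triangleRemovalBound (ε / 9)) < n := hN.trans h4
  rw [div_lt_iff₀ (by positivity)] at h5
  nlinarith

/-- The block triple of a triple of vertices. -/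
def blk {m t : ℕ} (e : (Fin m × Fin t) × (Fin m × Fin t) × (Fin m × Fin t)) :
    Fin m × Fin m × Fin m := (e.1.1, e.2.1.1, e.2.2.1)

/-- The label triple of a triple of vertices. -/
def lab {m t : ℕ} (e : (Fin m × Fin t) × (Fin m × Fin t) × (Fin m × Fin t)) :
    Fin t × Fin t × Fin t := (e.1.2, e.2.1.2, e.2.2.2)

theorem blk_lab_inj {m t : ℕ} (e f : (Fin m × Fin t) × (Fin m × Fin t) × (Fin m × Fin t))
    (h1 : blk e = blk f) (h2 : lab e = lab f) : e = f := by
  obtain ⟨⟨a, b⟩, ⟨c, d⟩, ⟨g, h⟩⟩ := e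
  obtain ⟨⟨a', b'⟩, ⟨c', d'⟩, ⟨g', h'⟩⟩ := f
  simp only [blk, lab, Prod.mk.injEq] at h1 h2 ⊢
  tauto

/-- The pattern of a block triple. -/
def pat {m t : ℕ} (H : Finset ((Fin m × Fin t) × (Fin m × Fin t) × (Fin m × Fin t)))
    (β : Fin m × Fin m × Fin m) : Finset (Fin t × Fin t × Fin t) :=
  (H.filter (fun e => blk e = β)).image lab

theorem mem_pat {m t : ℕ} (H : Finset ((Fin m × Fin t) × (Fin m × Fin t) × (Fin m × Fin t)))
    (i j k : Fin m) (p q r : Fin t) :
    (p, q, r) ∈ pat H (i, j, k) ↔ ((i, p), (j, q), (k, r)) ∈ H := by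
  unfold pat
  simp only [Finset.mem_image, Finset.mem_filter]
  constructor
  · rintro ⟨e, ⟨he, hb⟩, hl⟩
    have : e = ((i, p), (j, q), (k, r)) := blk_lab_inj _ _ (by simpa [blk] using hb) (by simpa [lab] using hl)
    rwa [← this]
  · intro h
    exact ⟨_, ⟨h, rfl⟩, rfl⟩

theorem pat_explicitDisjoint {m t : ℕ}
    (H : Finset ((Fin m × Fin t) × (Fin m × Fin t) × (Fin m × Fin t)))
    (hH : ExplicitDisjoint H) (β : Fin m × Fin m × Fin m) : ExplicitDisjoint (pat H β) := by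
  obtain ⟨i, j, k⟩ := β
  refine ⟨?_, ?_, ?_⟩
  · intro a b c a' h1 h2
    rw [mem_pat] at h1 h2
    have := hH.inj₀ h1 h2
    simpa using this
  · intro a b c a' h1 h2
    rw [mem_pat] at h1 h2
    have := hH.inj₁ h1 h2
    simpa using this
  · intro a b c a' h1 h2
    rw [mem_pat] at h1 h2
    have := hH.inj₂ h1 h2
    simpa using this

theorem card_eq_sum_pat {m t : ℕ}
    (H : Finset ((Fin m × Fin t) × (Fin m × Fin t) × (Fin m × Fin t))) :
    #H = ∑ β ∈ H.image blk, #(pat H β) := by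
  rw [Finset.card_eq_sum_card_image blk H]
  refine Finset.sum_congr rfl fun β _ => ?_
  unfold pat
  rw [Finset.card_image_of_injOn]
  intro e he f hf hef
  simp only [Finset.coe_filter, Set.mem_ofPred_eq] at he hf
  exact blk_lab_inj e f (he.2.trans hf.2.symm) hef

/-- Two-level Ruzsa-Szemeredi. -/
theorem core (c K : ℝ) (hc : 0 < c) (hK : 0 < K) : ∃ t₀ : ℕ, ∀ t : ℕ, t₀ ≤ t → ∃ m₀ : ℕ,
    ∀ m : ℕ, m₀ ≤ m →
    ∀ H : Finset ((Fin m × Fin t) × (Fin m × Fin t) × (Fin m × Fin t)), ExplicitDisjoint H →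
      c * (m : ℝ) ^ 2 * (t : ℝ) ^ 2 ≤ (#H : ℝ) → (#(H.image blk) : ℝ) ≤ K * (m : ℝ) ^ 2 →
      ∃ (i i' j j' k k' : Fin m) (p p' q q' r r' : Fin t),
        i ≠ i' ∧ j ≠ j' ∧ k ≠ k' ∧ p ≠ p' ∧ q ≠ q' ∧ r ≠ r' ∧
        ((i, p), (j, q'), (k, r')) ∈ H ∧ ((i, p'), (j, q), (k, r')) ∈ H ∧
        ((i, p), (j', q), (k', r)) ∈ H ∧ ((i, p'), (j', q), (k', r')) ∈ H ∧
        ((i', p), (j, q), (k', r)) ∈ H ∧ ((i', p), (j, q'), (k', r')) ∈ H := by
  classical
  obtain ⟨t₀, ht₀⟩ := exists_accidental (c / (2 * K)) (by positivity)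
  refine ⟨t₀ + 1, fun t ht => ?_⟩
  have ht1 : 0 < t := by omega
  set Q : ℕ := Fintype.card (Finset (Fin t × Fin t × Fin t)) with hQ
  have hQ0 : 0 < Q := Fintype.card_pos
  obtain ⟨m₀, hm₀⟩ := exists_accidental (c / 2 / Q) (by positivity)
  refine ⟨m₀ + 1, fun m hm H hH hcard himg => ?_⟩
  have hm1 : (0 : ℝ) < m := by
    have : 0 < m := by omega
    exact_mod_cast this
  have htR : (0 : ℝ) < t := by exact_mod_cast ht1
  -- dense block triples
  set B : Finset (Fin m × Fin m × Fin m) := H.image blk with hB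
  set D : Finset (Fin m × Fin m × Fin m) :=
    B.filter (fun β => c / (2 * K) * (t : ℝ) ^ 2 ≤ (#(pat H β) : ℝ)) with hD
  have hDcard : c / 2 * (m : ℝ) ^ 2 ≤ (#D : ℝ) := by
    have h1 : (#H : ℝ) = ∑ β ∈ B, (#(pat H β) : ℝ) := by
      have := card_eq_sum_pat H
      rw [← hB] at this
      exact_mod_cast this
    have h2 : ∑ β ∈ B, (#(pat H β) : ℝ) ≤
        ∑ β ∈ B, (c / (2 * K) * (t : ℝ) ^ 2 + if β ∈ D then (t : ℝ) ^ 2 else 0) := by
      refine Finset.sum_le_sum fun β hβ => ?_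
      by_cases hβD : β ∈ D
      · rw [if_pos hβD]
        have := card_le_sq_of_explicitDisjoint _ (pat_explicitDisjoint H hH β)
        simp only [Fintype.card_fin] at this
        have h3 : (#(pat H β) : ℝ) ≤ (t : ℝ) ^ 2 := by
          have h4 : (#(pat H β) : ℝ) ≤ ((t * t : ℕ) : ℝ) := by exact_mod_cast this
          push_cast at h4
          nlinarith
        have h5 : 0 ≤ c / (2 * K) * (t : ℝ) ^ 2 := by positivity
        linarith
      · rw [if_neg hβD]
        have : ¬ (c / (2 * K) * (t : ℝ) ^ 2 ≤ (#(pat H β) : ℝ)) := by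
          intro h
          exact hβD (Finset.mem_filter.2 ⟨hβ, h⟩)
        push Not at this
        linarith
    rw [Finset.sum_add_distrib, Finset.sum_const, nsmul_eq_mul, ← Finset.sum_filter,
      Finset.sum_const, nsmul_eq_mul] at h2
    have h6 : B.filter (fun β => β ∈ D) = D := by
      ext β
      simp only [Finset.mem_filter, hD]
      tauto
    rw [h6] at h2
    have h7 : (#B : ℝ) * (c / (2 * K) * (t : ℝ) ^ 2) ≤ c / 2 * (m : ℝ) ^ 2 * (t : ℝ) ^ 2 := by
      calc (#B : ℝ) * (c / (2 * K) * (t : ℝ) ^ 2)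
          ≤ (K * (m : ℝ) ^ 2) * (c / (2 * K) * (t : ℝ) ^ 2) := by
            apply mul_le_mul_of_nonneg_right himg (by positivity)
        _ = c / 2 * (m : ℝ) ^ 2 * (t : ℝ) ^ 2 := by
            field_simp
    have h8 : c / 2 * (m : ℝ) ^ 2 * (t : ℝ) ^ 2 ≤ (#D : ℝ) * (t : ℝ) ^ 2 := by
      rw [h1] at hcard
      linarith
    exact le_of_mul_le_mul_right h8 (by positivity)
  -- popular pattern
  obtain ⟨T, hT⟩ : ∃ T : Finset (Fin t × Fin t × Fin t),
      c / 2 / Q * (m : ℝ) ^ 2 ≤ (#(D.filter (fun β => pat H β = T)) : ℝ) := by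
    by_contra hcon
    push Not at hcon
    have h1 : (#D : ℝ) = ∑ T : Finset (Fin t × Fin t × Fin t),
        (#(D.filter (fun β => pat H β = T)) : ℝ) := by
      have := Finset.card_eq_sum_card_fiberwise (f := pat H) (s := D) (t := Finset.univ)
        (fun _ _ => Finset.mem_coe.2 (Finset.mem_univ _))
      exact_mod_cast this
    have h2 : ∑ T : Finset (Fin t × Fin t × Fin t),
        (#(D.filter (fun β => pat H β = T)) : ℝ) <
        ∑ _T : Finset (Fin t × Fin t × Fin t), (c / 2 / Q * (m : ℝ) ^ 2) :=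
      Finset.sum_lt_sum_of_nonempty Finset.univ_nonempty (fun T _ => hcon T)
    rw [Finset.sum_const, nsmul_eq_mul, Finset.card_univ, ← hQ] at h2
    have h3 : (Q : ℝ) * (c / 2 / Q * (m : ℝ) ^ 2) = c / 2 * (m : ℝ) ^ 2 := by
      field_simp
    rw [h3] at h2
    linarith
  set S := D.filter (fun β => pat H β = T) with hS
  have hSne : S.Nonempty := by
    rw [← Finset.card_pos]
    have h1 : (0 : ℝ) < (#S : ℝ) := lt_of_lt_of_le (by positivity) hT
    exact_mod_cast h1
  have hST : ∀ i j k, (i, j, k) ∈ S → ∀ p q r, (p, q, r) ∈ T → ((i, p), (j, q), (k, r)) ∈ H := by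
    intro i j k hβ p q r hT'
    rw [← mem_pat]
    rw [(Finset.mem_filter.1 hβ).2]
    exact hT'
  -- the pattern is dense
  have hTdense : c / (2 * K) * (t : ℝ) ^ 2 ≤ (#T : ℝ) := by
    obtain ⟨β, hβ⟩ := hSne
    have h1 := (Finset.mem_filter.1 hβ).1
    have h2 := (Finset.mem_filter.1 h1).2
    rw [(Finset.mem_filter.1 hβ).2] at h2
    exact h2
  have hTdis : ExplicitDisjoint T := by
    obtain ⟨β, hβ⟩ := hSne
    have := pat_explicitDisjoint H hH β
    rwa [(Finset.mem_filter.1 hβ).2] at this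
  have hTne : T.Nonempty := by
    rw [← Finset.card_pos]
    have h1 : (0 : ℝ) < (#T : ℝ) := lt_of_lt_of_le (by positivity) hTdense
    exact_mod_cast h1
  have hSdis : ExplicitDisjoint S := by
    obtain ⟨⟨p, q, r⟩, hpqr⟩ := hTne
    refine ⟨?_, ?_, ?_⟩
    · intro a b c' a' h1 h2
      have h3 := hH.inj₀ (hST _ _ _ h1 _ _ _ hpqr) (hST _ _ _ h2 _ _ _ hpqr)
      simpa using h3
    · intro a b c' a' h1 h2
      have h3 := hH.inj₁ (hST _ _ _ h1 _ _ _ hpqr) (hST _ _ _ h2 _ _ _ hpqr)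
      simpa using h3
    · intro a b c' a' h1 h2
      have h3 := hH.inj₂ (hST _ _ _ h1 _ _ _ hpqr) (hST _ _ _ h2 _ _ _ hpqr)
      simpa using h3
  obtain ⟨i, i', j, j', k', k, hi, hj, hk, h1, h2, h3⟩ := hm₀ m (by omega) S hSdis hT
  obtain ⟨p, p', q, q', r', r, hp, hq, hr, g1, g2, g3⟩ := ht₀ t (by omega) T hTdis hTdense
  exact ⟨i, i', j, j', k, k', p, p', q, q', r, r', hi, hj, hk.symm, hp, hq, hr.symm,
    hST _ _ _ h3 _ _ _ g2, hST _ _ _ h3 _ _ _ g1, hST _ _ _ h2 _ _ _ g3,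
    hST _ _ _ h2 _ _ _ g1, hST _ _ _ h1 _ _ _ g3, hST _ _ _ h1 _ _ _ g2⟩

end Pool.Agent.MP_f6f4b2_co
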