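import Pool.Agent.Lib.MP_f6f4b2_co.General

set_option autoImplicit false

open Finset

namespace Pool.Agent.MP_f6f4b2_co

open SimpleGraph TripartiteFromTriangles

/-- Rainbow part of a linear 3-graph with respect to consecutive windows of length `s`. -/
theorem exists_window_triples (n s : ℕ) (hs : 0 < s)
    (H : Finset (Finset (Fin n))) (hH : IsLinear H) :
    ∃ T : Finset (Fin n × Fin n × Fin n),
      (∀ w ∈ T, ({w.1, w.2.1, w.2.2} : Finset (Fin n)) ∈ H ∧
        (w.1 : ℕ) / s < (w.2.1 : ℕ) / s ∧ (w.2.1 : ℕ) / s < (w.2.2 : ℕ) / s) ∧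
      #H ≤ #T + n * s := by
  classical
  set T : Finset (Fin n × Fin n × Fin n) := Finset.univ.filter (fun w =>
    ({w.1, w.2.1, w.2.2} : Finset (Fin n)) ∈ H ∧
        (w.1 : ℕ) / s < (w.2.1 : ℕ) / s ∧ (w.2.1 : ℕ) / s < (w.2.2 : ℕ) / s) with hT
  refine ⟨T, fun w hw => (Finset.mem_filter.1 hw).2, ?_⟩
  set P : Finset (Fin n × Fin n) := Finset.univ.filter (fun p =>
    p.1 ≠ p.2 ∧ (p.1 : ℕ) / s = (p.2 : ℕ) / s) with hP
  have hPcard : #P ≤ n * s := by
    have h1 : #P ≤ #((Finset.univ : Finset (Fin n)) ×ˢ Finset.range s) := by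
      refine Finset.card_le_card_of_injOn (fun p => (p.1, (p.2 : ℕ) % s)) ?_ ?_
      · rintro ⟨x, y⟩ _
        simp only [Finset.coe_product, Set.mem_prod, Finset.mem_coe, Finset.mem_univ, true_and,
          Finset.mem_range]
        exact Nat.mod_lt _ hs
      · rintro ⟨x, y⟩ hxy ⟨x', y'⟩ hxy' h
        simp only [hP, Finset.coe_filter, Finset.mem_univ, true_and] at hxy hxy'
        have e1 := hxy.2
        have e2 := hxy'.2
        simp only [Prod.mk.injEq] at h e1 e2 ⊢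
        refine ⟨h.1, Fin.ext ?_⟩
        rw [← Nat.div_add_mod (y : ℕ) s, ← Nat.div_add_mod (y' : ℕ) s, ← e1, ← e2, h.1, h.2]
    simpa using h1
  have hcover : H ⊆ T.image (fun w => ({w.1, w.2.1, w.2.2} : Finset (Fin n))) ∪
      P.biUnion (fun p => H.filter (fun e => p.1 ∈ e ∧ p.2 ∈ e)) := by
    intro e he
    obtain ⟨x, y, z, hxy, hxz, hyz, rfl⟩ := Finset.card_eq_three.1 (hH.1 e he)
    rw [Finset.mem_union]
    by_cases h : (x : ℕ) / s ≠ (y : ℕ) / s ∧ (x : ℕ) / s ≠ (z : ℕ) / s ∧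
        (y : ℕ) / s ≠ (z : ℕ) / s
    · left
      rw [Finset.mem_image]
      obtain ⟨h1, h2, h3⟩ := h
      have mk : ∀ a b c : Fin n, ({a, b, c} : Finset (Fin n)) = {x, y, z} →
          (a : ℕ) / s < (b : ℕ) / s → (b : ℕ) / s < (c : ℕ) / s →
          ∃ w ∈ T, ({w.1, w.2.1, w.2.2} : Finset (Fin n)) = {x, y, z} := by
        intro a b c habc hab hbc
        refine ⟨(a, b, c), ?_, habc⟩
        rw [hT, Finset.mem_filter]
        exact ⟨Finset.mem_univ _, by rw [habc]; exact he, hab, hbc⟩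
      rcases lt_or_gt_of_ne h1 with l1 | l1 <;> rcases lt_or_gt_of_ne h2 with l2 | l2 <;>
        rcases lt_or_gt_of_ne h3 with l3 | l3
      · exact mk x y z rfl l1 l3
      · exact mk x z y (by ext u; simp only [Finset.mem_insert, Finset.mem_singleton]; tauto) l2 l3
      · omega
      · exact mk z x y (by ext u; simp only [Finset.mem_insert, Finset.mem_singleton]; tauto) l2 l1
      · exact mk y x z (by ext u; simp only [Finset.mem_insert, Finset.mem_singleton]; tauto) l1 l2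
      · omega
      · exact mk y z x (by ext u; simp only [Finset.mem_insert, Finset.mem_singleton]; tauto) l3 l2
      · exact mk z y x (by ext u; simp only [Finset.mem_insert, Finset.mem_singleton]; tauto) l3 l1
    · right
      rw [Finset.mem_biUnion]
      have mk : ∀ a b : Fin n, a ≠ b → (a : ℕ) / s = (b : ℕ) / s →
          a ∈ ({x, y, z} : Finset (Fin n)) → b ∈ ({x, y, z} : Finset (Fin n)) →
          ∃ p ∈ P, ({x, y, z} : Finset (Fin n)) ∈ H.filter (fun e => p.1 ∈ e ∧ p.2 ∈ e) := by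
        intro a b hab hs' ha hb
        refine ⟨(a, b), ?_, ?_⟩
        · rw [hP, Finset.mem_filter]
          exact ⟨Finset.mem_univ _, hab, hs'⟩
        · rw [Finset.mem_filter]
          exact ⟨he, ha, hb⟩
      by_cases h1 : (x : ℕ) / s = (y : ℕ) / s
      · exact mk x y hxy h1 (by simp) (by simp)
      · by_cases h2 : (x : ℕ) / s = (z : ℕ) / s
        · exact mk x z hxz h2 (by simp) (by simp)
        · have h3 : (y : ℕ) / s = (z : ℕ) / s := by
            by_contra h3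
            exact h ⟨h1, h2, h3⟩
          exact mk y z hyz h3 (by simp) (by simp)
  refine (Finset.card_le_card hcover).trans ((Finset.card_union_le _ _).trans ?_)
  refine Nat.add_le_add Finset.card_image_le ?_
  refine (Finset.card_biUnion_le.trans ?_).trans hPcard
  calc ∑ p ∈ P, #(H.filter (fun e => p.1 ∈ e ∧ p.2 ∈ e)) ≤ ∑ _p ∈ P, 1 := by
        refine Finset.sum_le_sum fun p hp => ?_
        rw [Finset.card_le_one]
        intro e he f hf
        rw [Finset.mem_filter] at he hf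
        exact pair_unique hH he.1 hf.1 (Finset.mem_filter.1 hp).2.1 he.2.1 he.2.2 hf.2.1 hf.2.2
    _ = #P := by simp

/-- **Block theorem.** -/
theorem grid_of_blocks (c K : ℝ) (hc : 0 < c) (hK : 0 < K) : ∃ t₀ : ℕ, ∀ t : ℕ, t₀ ≤ t →
    ∃ n₀ : ℕ, ∀ n : ℕ, n₀ ≤ n → ∀ H : Finset (Finset (Fin n)), IsLinear H →
      c * (n : ℝ) ^ 2 ≤ (#H : ℝ) → ∀ (m : ℕ) (b : Fin n → Fin m),
      (∀ j, #(Finset.univ.filter (fun v => b v = j)) ≤ t) → (m : ℝ) * t ≤ K * n →
      (#(H.image (fun e => e.image b)) : ℝ) ≤ K * (m : ℝ) ^ 2 → HasGrid H := by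
  classical
  obtain ⟨r, hr⟩ := exists_nat_gt (4 / c)
  have hr0 : (0 : ℝ) < r := lt_trans (by positivity) hr
  have hr0' : 0 < r := by exact_mod_cast hr0
  obtain ⟨t₀, h0⟩ := thomsen_of_blocks (c / 2 / (r : ℝ) ^ 3 / K ^ 2) (27 * K) (by positivity)
    (by positivity)
  refine ⟨t₀ + 1, fun t ht => ?_⟩
  obtain ⟨m₀, h1⟩ := h0 t (by omega)
  refine ⟨max (m₀ * t) (r + 1), fun n hn H hH hcard m b hb hmt himg => ?_⟩
  have ht0 : 0 < t := by omega
  have hnr : r + 1 ≤ n := (le_max_right _ _).trans hn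
  have hnm : m₀ * t ≤ n := (le_max_left _ _).trans hn
  have hn0 : (0 : ℝ) < n := by
    have : 0 < n := by omega
    exact_mod_cast this
  set s := n / r + 1 with hs
  have hs0 : 0 < s := Nat.succ_pos _
  have hrs : n ≤ r * s := by
    have := Nat.lt_mul_div_succ n hr0'
    rw [hs]
    exact this.le
  obtain ⟨T, hT, hTc⟩ := exists_window_triples n s hs0 H hH
  have hTc' : c / 2 * (n : ℝ) ^ 2 ≤ (#T : ℝ) := by
    have h2 : (#H : ℝ) ≤ (#T : ℝ) + n * s := by exact_mod_cast hTc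
    have h3 : (s : ℝ) ≤ 2 * n / r := by
      have h4 : ((n / r : ℕ) : ℝ) ≤ (n : ℝ) / r := Nat.cast_div_le
      have h5 : (1 : ℝ) ≤ n / r := by
        rw [le_div_iff₀ hr0]
        have : r ≤ n := by omega
        have : (r : ℝ) ≤ n := by exact_mod_cast this
        linarith
      rw [hs]
      push_cast
      calc ((n / r : ℕ) : ℝ) + 1 ≤ n / r + n / r := by linarith
        _ = 2 * n / r := by ring
    have h6 : (n : ℝ) * s ≤ c / 2 * (n : ℝ) ^ 2 := by
      have h7 : (n : ℝ) * s ≤ n * (2 * n / r) := mul_le_mul_of_nonneg_left h3 hn0.le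
      have h8 : (n : ℝ) * (2 * n / r) = 2 / r * (n : ℝ) ^ 2 := by ring
      have h9 : 2 / (r : ℝ) ≤ c / 2 := by
        rw [div_le_iff₀ hr0]
        rw [div_lt_iff₀ hc] at hr
        nlinarith
      rw [h8] at h7
      exact h7.trans (mul_le_mul_of_nonneg_right h9 (by positivity))
    linarith
  -- pigeonhole over windows
  set χ : Fin n → ℕ := fun v => (v : ℕ) / s with hχ
  have hχr : ∀ v, χ v < r := fun v => by
    rw [hχ]
    exact (Nat.div_lt_iff_lt_mul hs0).2 (lt_of_lt_of_le v.2 hrs)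
  obtain ⟨κ, hκ⟩ : ∃ κ : ℕ × ℕ × ℕ, c / 2 / (r : ℝ) ^ 3 * (n : ℝ) ^ 2 ≤
      (#(T.filter (fun w => (χ w.1, χ w.2.1, χ w.2.2) = κ)) : ℝ) := by
    by_contra hcon
    push Not at hcon
    set R := Finset.range r ×ˢ Finset.range r ×ˢ Finset.range r with hR
    have hmaps : ∀ w ∈ T, (χ w.1, χ w.2.1, χ w.2.2) ∈ R := by
      intro w _
      simp only [hR, Finset.mem_product, Finset.mem_range]
      exact ⟨hχr _, hχr _, hχr _⟩
    have h2 : (#T : ℝ) = ∑ κ ∈ R, (#(T.filter (fun w => (χ w.1, χ w.2.1, χ w.2.2) = κ)) : ℝ) := by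
      have := Finset.card_eq_sum_card_fiberwise (f := fun w : Fin n × Fin n × Fin n =>
        (χ w.1, χ w.2.1, χ w.2.2)) (s := T) (t := R)
        (fun w hw => Finset.mem_coe.2 (hmaps w (Finset.mem_coe.1 hw)))
      exact_mod_cast this
    have hRne : R.Nonempty := ⟨(0, 0, 0), by simp [hR, hr0']⟩
    have h3 := Finset.sum_lt_sum_of_nonempty hRne (fun κ _ => hcon κ)
    rw [← h2, Finset.sum_const, nsmul_eq_mul] at h3
    have h4 : (#R : ℝ) = (r : ℝ) ^ 3 := by
      simp only [hR, Finset.card_product, Finset.card_range]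
      push_cast
      ring
    rw [h4] at h3
    have h5 : (r : ℝ) ^ 3 * (c / 2 / (r : ℝ) ^ 3 * (n : ℝ) ^ 2) = c / 2 * (n : ℝ) ^ 2 := by
      field_simp
    rw [h5] at h3
    linarith
  obtain ⟨α, β, γ⟩ := κ
  set T' := T.filter (fun w => (χ w.1, χ w.2.1, χ w.2.2) = (α, β, γ)) with hT'
  have hT'prop : ∀ w ∈ T', ({w.1, w.2.1, w.2.2} : Finset (Fin n)) ∈ H ∧ χ w.1 = α ∧
      χ w.2.1 = β ∧ χ w.2.2 = γ := by
    intro w hw
    rw [hT', Finset.mem_filter] at hw
    have h2 := hw.2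
    simp only [Prod.mk.injEq] at h2
    exact ⟨(hT w hw.1).1, h2.1, h2.2.1, h2.2.2⟩
  have hT'ne : T'.Nonempty := by
    rw [← Finset.card_pos]
    have h2 : (0 : ℝ) < (#T' : ℝ) := lt_of_lt_of_le (by positivity) hκ
    exact_mod_cast h2
  have hαβγ : α < β ∧ β < γ := by
    obtain ⟨w, hw⟩ := hT'ne
    obtain ⟨_, h2, h3, h4⟩ := hT'prop w hw
    rw [hT', Finset.mem_filter] at hw
    have h5 := (hT w hw.1).2
    rw [← h2, ← h3, ← h4]
    exact h5
  obtain ⟨hαβ, hβγ⟩ := hαβγ
  -- explicit disjointness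
  have nxy : ∀ {x y : Fin n}, χ x = α → χ y = β → x ≠ y := by
    rintro x y hx hy rfl
    omega
  have nyz : ∀ {x y : Fin n}, χ x = β → χ y = γ → x ≠ y := by
    rintro x y hx hy rfl
    omega
  have nxz : ∀ {x y : Fin n}, χ x = α → χ y = γ → x ≠ y := by
    rintro x y hx hy rfl
    omega
  have hdis : ExplicitDisjoint T' := by
    refine ⟨?_, ?_, ?_⟩
    · intro x y z x' h2 h3
      obtain ⟨p1, p2, p3, p4⟩ := hT'prop _ h2
      obtain ⟨q1, q2, q3, q4⟩ := hT'prop _ h3
      simp only at p1 p2 p3 p4 q1 q2 q3 q4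
      have h4 := pair_unique hH p1 q1 (nyz p3 p4) (by simp) (by simp) (by simp) (by simp)
      have h5 : x' ∈ ({x, y, z} : Finset (Fin n)) := by rw [h4]; simp
      simp only [Finset.mem_insert, Finset.mem_singleton] at h5
      rcases h5 with h5 | h5 | h5
      · exact h5.symm
      · exact absurd h5 (nxy q2 p3)
      · exact absurd h5 (nxz q2 p4)
    · intro x y z x' h2 h3
      obtain ⟨p1, p2, p3, p4⟩ := hT'prop _ h2
      obtain ⟨q1, q2, q3, q4⟩ := hT'prop _ h3
      simp only at p1 p2 p3 p4 q1 q2 q3 q4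
      have h4 := pair_unique hH p1 q1 (nxz p2 p4) (by simp) (by simp) (by simp) (by simp)
      have h5 : x' ∈ ({x, y, z} : Finset (Fin n)) := by rw [h4]; simp
      simp only [Finset.mem_insert, Finset.mem_singleton] at h5
      rcases h5 with h5 | h5 | h5
      · exact absurd h5.symm (nxy p2 q3)
      · exact h5.symm
      · exact absurd h5 (nyz q3 p4)
    · intro x y z x' h2 h3
      obtain ⟨p1, p2, p3, p4⟩ := hT'prop _ h2
      obtain ⟨q1, q2, q3, q4⟩ := hT'prop _ h3
      simp only at p1 p2 p3 p4 q1 q2 q3 q4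
      have h4 := pair_unique hH p1 q1 (nxy p2 p3) (by simp) (by simp) (by simp) (by simp)
      have h5 : x' ∈ ({x, y, z} : Finset (Fin n)) := by rw [h4]; simp
      simp only [Finset.mem_insert, Finset.mem_singleton] at h5
      rcases h5 with h5 | h5 | h5
      · exact absurd h5.symm (nxz p2 q4)
      · exact absurd h5.symm (nyz p3 q4)
      · exact h5.symm
  -- coordinates
  set φ : Fin n → Fin m × Fin t := fun v => (b v, ⟨lbl b v, lbl_lt b t hb v⟩) with hφ
  have hφinj : Function.Injective φ := by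
    intro v w hvw
    simp only [hφ, Prod.mk.injEq, Fin.mk.injEq] at hvw
    exact lbl_inj b v w hvw.1 hvw.2
  -- number of blocks
  have hmn : n ≤ m * t := by
    have h2 := Fintype.card_le_of_injective φ hφinj
    simpa using h2
  have hmm : m₀ ≤ m := by
    have h2 : m₀ * t ≤ m * t := hnm.trans hmn
    exact Nat.le_of_mul_le_mul_right h2 ht0
  have hcard' : c / 2 / (r : ℝ) ^ 3 / K ^ 2 * (m : ℝ) ^ 2 * (t : ℝ) ^ 2 ≤ (#T' : ℝ) := by
    refine le_trans ?_ hκ
    have h2 : ((m : ℝ) * t) ^ 2 ≤ (K * n) ^ 2 :=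
      pow_le_pow_left₀ (by positivity) hmt 2
    have h3 : c / 2 / (r : ℝ) ^ 3 / K ^ 2 * (m : ℝ) ^ 2 * (t : ℝ) ^ 2 =
        c / 2 / (r : ℝ) ^ 3 / K ^ 2 * ((m : ℝ) * t) ^ 2 := by ring
    rw [h3]
    refine (mul_le_mul_of_nonneg_left h2 (by positivity)).trans (le_of_eq ?_)
    field_simp
  have himg' : (#(T'.image (fun e => ((φ e.1).1, (φ e.2.1).1, (φ e.2.2).1))) : ℝ) ≤
      27 * K * (m : ℝ) ^ 2 := by
    have h2 : T'.image (fun e => ((φ e.1).1, (φ e.2.1).1, (φ e.2.2).1)) ⊆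
        (H.image (fun e => e.image b)).biUnion (fun u => u ×ˢ u ×ˢ u) := by
      intro w hw
      rw [Finset.mem_image] at hw
      obtain ⟨e, he, rfl⟩ := hw
      rw [Finset.mem_biUnion]
      refine ⟨({e.1, e.2.1, e.2.2} : Finset (Fin n)).image b,
        Finset.mem_image_of_mem _ (hT'prop e he).1, ?_⟩
      simp only [hφ, Finset.mem_product]
      refine ⟨Finset.mem_image_of_mem _ (by simp), Finset.mem_image_of_mem _ (by simp),
        Finset.mem_image_of_mem _ (by simp)⟩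
    have h3 : #((H.image (fun e => e.image b)).biUnion (fun u => u ×ˢ u ×ˢ u)) ≤
        #(H.image (fun e => e.image b)) * 27 := by
      refine Finset.card_biUnion_le_card_mul _ _ _ ?_
      intro u hu
      rw [Finset.mem_image] at hu
      obtain ⟨e, he, rfl⟩ := hu
      have h4 : #(e.image b) ≤ 3 := (Finset.card_image_le).trans (hH.1 e he).le
      simp only [Finset.card_product]
      calc #(e.image b) * (#(e.image b) * #(e.image b)) ≤ 3 * (3 * 3) := by gcongr
        _ = 27 := by norm_num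
    have h5 : (#(T'.image (fun e => ((φ e.1).1, (φ e.2.1).1, (φ e.2.2).1))) : ℝ) ≤
        (#(H.image (fun e => e.image b)) : ℝ) * 27 := by
      exact_mod_cast (Finset.card_le_card h2).trans h3
    nlinarith
  exact grid_of_thomsen H χ α β γ hαβ hβγ T' hT'prop
    (h1 m hmm φ φ φ hφinj hφinj hφinj T' hdis hcard' himg')

/-- **Monotone theorem.** -/
theorem thomsen_of_monotone (c : ℝ) (hc : 0 < c) (K : ℕ) (hK : 0 < K) : ∃ n₀ : ℕ, ∀ n : ℕ,
    n₀ ≤ n → ∀ (S : Finset (Fin n × Fin n)) (f : Fin n → Fin n → Fin (K * n)),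
      (∀ x ∈ S, ∀ y ∈ S, x.1 ≤ y.1 → x.2 ≤ y.2 → x ≠ y → f x.1 x.2 < f y.1 y.2) →
      c * (n : ℝ) ^ 2 ≤ (#S : ℝ) →
      HasThomsen (S.image (fun x => (x.1, x.2, f x.1 x.2))) := by
  classical
  obtain ⟨t₀, h0⟩ := thomsen_of_blocks (c / (4 * (K : ℝ) ^ 2)) 4 (by positivity) (by norm_num)
  obtain ⟨m₀, h1⟩ := h0 (t₀ + 1) (by omega)
  set t := t₀ + 1 with ht
  have ht0 : 0 < t := by omega
  refine ⟨(m₀ + 1) * t, fun n hn S f hf hcard => ?_⟩
  have hnt : t ≤ n := by nlinarith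
  have hn0 : 0 < n := by omega
  set m := K * n / t + 1 with hm
  have hmt : K * n < m * t := by
    have := Nat.lt_mul_div_succ (K * n) ht0
    rw [hm, mul_comm _ t]
    exact this
  have hmm : m₀ ≤ m := by
    have h2 : m₀ * t ≤ n := by nlinarith
    have h3 : m₀ * t ≤ m * t := by nlinarith
    exact Nat.le_of_mul_le_mul_right h3 ht0
  have hmt' : m * t ≤ 2 * (K * n) := by
    have h2 : K * n / t * t ≤ K * n := Nat.div_mul_le_self _ _
    have h3 : t ≤ K * n := by nlinarith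
    rw [hm, add_mul]
    omega
  have hnm : n < m * t := by nlinarith
  have hd : ∀ a : ℕ, a < m * t → a / t < m := fun a ha => (Nat.div_lt_iff_lt_mul ht0).2 ha
  set φ : Fin n → Fin m × Fin t := fun v =>
    (⟨(v : ℕ) / t, hd _ (lt_trans v.2 hnm)⟩, ⟨(v : ℕ) % t, Nat.mod_lt _ ht0⟩) with hφ
  set ψ : Fin (K * n) → Fin m × Fin t := fun v =>
    (⟨(v : ℕ) / t, hd _ (lt_trans v.2 hmt)⟩, ⟨(v : ℕ) % t, Nat.mod_lt _ ht0⟩) with hψ
  have hφinj : Function.Injective φ := by
    intro v w h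
    simp only [hφ, Prod.mk.injEq, Fin.mk.injEq] at h
    ext
    rw [← Nat.div_add_mod (v : ℕ) t, ← Nat.div_add_mod (w : ℕ) t, h.1, h.2]
  have hψinj : Function.Injective ψ := by
    intro v w h
    simp only [hψ, Prod.mk.injEq, Fin.mk.injEq] at h
    ext
    rw [← Nat.div_add_mod (v : ℕ) t, ← Nat.div_add_mod (w : ℕ) t, h.1, h.2]
  set H := S.image (fun x => (x.1, x.2, f x.1 x.2)) with hH
  have hmem : ∀ a b c, (a, b, c) ∈ H ↔ (a, b) ∈ S ∧ f a b = c := by
    intro a b c
    simp only [hH, Finset.mem_image, Prod.mk.injEq, Prod.exists]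
    constructor
    · rintro ⟨a', b', h, rfl, rfl, h'⟩
      exact ⟨h, h'⟩
    · rintro ⟨h, h'⟩
      exact ⟨a, b, h, rfl, rfl, h'⟩
  have hdis : ExplicitDisjoint H := by
    refine ⟨?_, ?_, ?_⟩
    · intro x y z x' h2 h3
      rw [hmem] at h2 h3
      by_contra hne
      rcases lt_or_gt_of_ne hne with h | h
      · have := hf _ h2.1 _ h3.1 h.le le_rfl (by simp [h.ne])
        simp only at this
        rw [h2.2, h3.2] at this
        exact lt_irrefl _ this
      · have := hf _ h3.1 _ h2.1 h.le le_rfl (by simp [h.ne])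
        simp only at this
        rw [h2.2, h3.2] at this
        exact lt_irrefl _ this
    · intro x y z y' h2 h3
      rw [hmem] at h2 h3
      by_contra hne
      rcases lt_or_gt_of_ne hne with h | h
      · have := hf _ h2.1 _ h3.1 le_rfl h.le (by simp [h.ne])
        simp only at this
        rw [h2.2, h3.2] at this
        exact lt_irrefl _ this
      · have := hf _ h3.1 _ h2.1 le_rfl h.le (by simp [h.ne])
        simp only at this
        rw [h2.2, h3.2] at this
        exact lt_irrefl _ this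
    · intro x y z z' h2 h3
      rw [hmem] at h2 h3
      rw [← h2.2, ← h3.2]
  have hHcard : #H = #S := by
    rw [hH, Finset.card_image_of_injective]
    rintro ⟨a, b⟩ ⟨a', b'⟩ h
    simp only [Prod.mk.injEq] at h
    rw [h.1, h.2.1]
  have hcard' : c / (4 * (K : ℝ) ^ 2) * (m : ℝ) ^ 2 * (t : ℝ) ^ 2 ≤ (#H : ℝ) := by
    rw [hHcard]
    refine le_trans ?_ hcard
    have hKR : (0 : ℝ) < K := by exact_mod_cast hK
    have h2 : (m : ℝ) * t ≤ 2 * (K * n) := by exact_mod_cast hmt'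
    have h3 : ((m : ℝ) * t) ^ 2 ≤ (2 * (K * n)) ^ 2 := pow_le_pow_left₀ (by positivity) h2 2
    have h4 : c / (4 * (K : ℝ) ^ 2) * (m : ℝ) ^ 2 * (t : ℝ) ^ 2 =
        c / (4 * (K : ℝ) ^ 2) * ((m : ℝ) * t) ^ 2 := by ring
    rw [h4]
    refine (mul_le_mul_of_nonneg_left h3 (by positivity)).trans (le_of_eq ?_)
    field_simp
    ring
  have himg' : (#(H.image (fun e => ((φ e.1).1, (φ e.2.1).1, (ψ e.2.2).1))) : ℝ) ≤
      4 * (m : ℝ) ^ 2 := by
    set S' : Finset (ℕ × ℕ) := S.image (fun x => ((x.1 : ℕ), (x.2 : ℕ))) with hS'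
    set g : ℕ → ℕ → ℕ := fun a b => if h : a < n ∧ b < n then (f ⟨a, h.1⟩ ⟨b, h.2⟩ : ℕ) else 0
      with hg
    have hgval : ∀ x : Fin n × Fin n, g (x.1 : ℕ) (x.2 : ℕ) = (f x.1 x.2 : ℕ) := by
      intro x
      simp only [hg]
      rw [dif_pos ⟨x.1.2, x.2.2⟩]
    have h2 := monotone_blocks m t ht0 S' g (by
      intro x hx
      rw [hS', Finset.mem_image] at hx
      obtain ⟨y, hy, rfl⟩ := hx
      refine ⟨lt_trans y.1.2 hnm, lt_trans y.2.2 hnm, ?_⟩
      simp only
      rw [hgval y]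
      exact lt_trans (f y.1 y.2).2 hmt) (by
      intro x hx y hy h1 h2 h3
      rw [hS', Finset.mem_image] at hx hy
      obtain ⟨x, hx, rfl⟩ := hx
      obtain ⟨y, hy, rfl⟩ := hy
      simp only at h1 h2 ⊢
      rw [hgval x, hgval y]
      exact hf x hx y hy h1 h2 (fun h => h3 (by rw [h])))
    have h3 : #(H.image (fun e => ((φ e.1).1, (φ e.2.1).1, (ψ e.2.2).1))) ≤
        #(S'.image (fun x => (x.1 / t, x.2 / t, g x.1 x.2 / t))) := by
      refine Finset.card_le_card_of_injOn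
        (fun w => ((w.1 : ℕ), (w.2.1 : ℕ), (w.2.2 : ℕ))) ?_ ?_
      · intro w hw
        simp only [Finset.coe_image, Set.mem_image, Finset.mem_coe] at hw ⊢
        obtain ⟨e, he, rfl⟩ := hw
        obtain ⟨a, b, c'⟩ := e
        rw [hmem] at he
        refine ⟨((a : ℕ), (b : ℕ)), ?_, ?_⟩
        · rw [hS']
          exact Finset.mem_image_of_mem (fun x : Fin n × Fin n => ((x.1 : ℕ), (x.2 : ℕ))) he.1
        · simp only [hφ, hψ]
          rw [hgval (a, b), ← he.2]
      · rintro ⟨a, b, c'⟩ _ ⟨a', b', c''⟩ _ h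
        simp only [Prod.mk.injEq] at h ⊢
        exact ⟨Fin.ext h.1, Fin.ext h.2.1, Fin.ext h.2.2⟩
    exact_mod_cast h3.trans h2
  exact h1 m hmm φ φ ψ hφinj hφinj hψinj H hdis hcard' himg'

end Pool.Agent.MP_f6f4b2_co
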