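import Pool.Agent.Lib.MP_f6f4b2_co.Main

set_option autoImplicit false

open Finset

namespace Pool.Agent.MP_f6f4b2_co

open SimpleGraph TripartiteFromTriangles

theorem pair_unique {V : Type*} [DecidableEq V] {H : Finset (Finset V)} (hH : IsLinear H)
    {e f : Finset V} (he : e ∈ H) (hf : f ∈ H) {x y : V} (hxy : x ≠ y) (hxe : x ∈ e) (hye : y ∈ e)
    (hxf : x ∈ f) (hyf : y ∈ f) : e = f := by
  by_contra hne
  have h1 := hH.2 e he f hf hne
  have h2 : ({x, y} : Finset V) ⊆ e ∩ f := by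
    intro w hw
    simp only [Finset.mem_insert, Finset.mem_singleton] at hw
    rcases hw with rfl | rfl
    · exact Finset.mem_inter.2 ⟨hxe, hxf⟩
    · exact Finset.mem_inter.2 ⟨hye, hyf⟩
  have h3 := Finset.card_le_card h2
  rw [Finset.card_pair hxy] at h3
  omega

/-- Label of a vertex inside its block. -/
def lbl {n m : ℕ} (b : Fin n → Fin m) (v : Fin n) : ℕ :=
  #(Finset.univ.filter (fun w => b w = b v ∧ w < v))

theorem lbl_lt {n m : ℕ} (b : Fin n → Fin m) (t : ℕ)
    (hb : ∀ j, #(Finset.univ.filter (fun v => b v = j)) ≤ t) (v : Fin n) : lbl b v < t := by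
  refine lt_of_lt_of_le (Finset.card_lt_card ?_) (hb (b v))
  rw [Finset.ssubset_iff_of_subset]
  · exact ⟨v, by simp, by simp⟩
  · intro w hw
    simp only [Finset.mem_filter, Finset.mem_univ, true_and] at hw ⊢
    exact hw.1

theorem lbl_inj {n m : ℕ} (b : Fin n → Fin m) (v w : Fin n) (h1 : b v = b w)
    (h2 : lbl b v = lbl b w) : v = w := by
  have key : ∀ v w : Fin n, b v = b w → v < w → lbl b v < lbl b w := by
    intro v w h hlt
    refine Finset.card_lt_card ?_
    rw [Finset.ssubset_iff_of_subset]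
    · exact ⟨v, by simp [h, hlt], by simp⟩
    · intro u hu
      simp only [Finset.mem_filter, Finset.mem_univ, true_and] at hu ⊢
      exact ⟨hu.1.trans h, hu.2.trans hlt⟩
  rcases lt_trichotomy v w with h | h | h
  · have := key v w h1 h
    omega
  · exact h
  · have := key w v h1.symm h
    omega

theorem grid_of_thomsen {n : ℕ} (H : Finset (Finset (Fin n))) (χ : Fin n → ℕ) (α β γ : ℕ)
    (hαβ : α < β) (hβγ : β < γ) (T : Finset (Fin n × Fin n × Fin n))
    (hT : ∀ w ∈ T, ({w.1, w.2.1, w.2.2} : Finset (Fin n)) ∈ H ∧ χ w.1 = α ∧ χ w.2.1 = β ∧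
      χ w.2.2 = γ) (h : HasThomsen T) : HasGrid H := by
  obtain ⟨x₁, x₂, x₃, y₁, y₂, y₃, z₁, z₂, z₃, a1, a2, a3, b1, b2, b3, c1, c2, c3,
    e1, e2, e3, e4, e5, e6⟩ := h
  obtain ⟨f1, g1, h1, k1⟩ := hT _ e1
  obtain ⟨f2, g2, h2, k2⟩ := hT _ e2
  obtain ⟨f3, g3, h3, k3⟩ := hT _ e3
  obtain ⟨f4, g4, h4, k4⟩ := hT _ e4
  obtain ⟨f5, g5, h5, k5⟩ := hT _ e5
  obtain ⟨f6, g6, h6, k6⟩ := hT _ e6
  simp only at f1 f2 f3 f4 f5 f6 g1 g2 g3 g4 g5 g6 h1 h2 h3 h4 h5 h6 k1 k2 k3 k4 k5 k6
  have nxy : ∀ {x y : Fin n}, χ x = α → χ y = β → x ≠ y := by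
    rintro x y hx hy rfl
    omega
  have nyz : ∀ {x y : Fin n}, χ x = β → χ y = γ → x ≠ y := by
    rintro x y hx hy rfl
    omega
  have nxz : ∀ {x y : Fin n}, χ x = α → χ y = γ → x ≠ y := by
    rintro x y hx hy rfl
    omega
  -- rows: (z₁, x₁, y₁), (x₂, y₃, z₃), (y₂, z₂, x₃)
  let g : Fin 3 × Fin 3 → Fin n := fun p =>
    (![![z₁, x₁, y₁], ![x₂, y₃, z₃], ![y₂, z₂, x₃]] : Fin 3 → Fin 3 → Fin n) p.1 p.2
  refine ⟨g, ?_, ?_, ?_⟩
  · have d01 := nxz g1 k1
    have d02 := nyz h1 k1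
    have d12 := nxy g1 h1
    have := nxz g2 k1
    have := nyz h3 k1
    have := nyz h2 k1
    have := nxz g5 k1
    have := nxy g1 h3
    have := nxz g1 k4
    have := nxy g1 h2
    have := nxz g1 k3
    have := nxy g2 h1
    have := nyz h1 k4
    have := nyz h1 k3
    have := nxy g5 h1
    have := nxy g2 h3
    have := nxz g2 k4
    have := nxy g2 h2
    have := nxz g2 k3
    have := nyz h3 k4
    have := nyz h3 k3
    have := nxy g5 h3
    have := nyz h2 k4
    have := nxz g5 k4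
    have := nyz h2 k3
    have := nxy g5 h2
    have := nxz g5 k3
    rintro ⟨i, j⟩ ⟨i', j'⟩ hij
    fin_cases i <;> fin_cases j <;> fin_cases i' <;> fin_cases j' <;>
      simp [g] at hij ⊢ <;> first | exact absurd hij (by assumption) | exact absurd hij.symm (by assumption)
  · intro i
    fin_cases i
    · have : ({z₁, x₁, y₁} : Finset (Fin n)) = {x₁, y₁, z₁} := by
        ext u; simp only [Finset.mem_insert, Finset.mem_singleton]; tauto
      simpa [g, this] using f1
    · simpa [g] using f4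
    · have : ({y₂, z₂, x₃} : Finset (Fin n)) = {x₃, y₂, z₂} := by
        ext u; simp only [Finset.mem_insert, Finset.mem_singleton]; tauto
      simpa [g, this] using f5
  · intro j
    fin_cases j
    · have : ({z₁, x₂, y₂} : Finset (Fin n)) = {x₂, y₂, z₁} := by
        ext u; simp only [Finset.mem_insert, Finset.mem_singleton]; tauto
      simpa [g, this] using f2
    · simpa [g] using f3
    · have : ({y₁, z₃, x₃} : Finset (Fin n)) = {x₃, y₁, z₃} := by
        ext u; simp only [Finset.mem_insert, Finset.mem_singleton]; tauto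
      simpa [g, this] using f6

end Pool.Agent.MP_f6f4b2_co
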