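import Pool.Agent.Lib.MP_f6f4b2_co.Final

set_option autoImplicit false

open Finset

namespace Pool.Agent.MP_f6f4b2_co

open SimpleGraph TripartiteFromTriangles

/-- Window coordinates of a point of a box of side `M = w * s`. -/
def win {d : ℕ} (w s : ℕ) (hs : 0 < s) (v : Fin d → ℕ) (hv : ∀ i, v i < w * s) :
    Fin (w ^ d) × Fin (s ^ d) :=
  (finFunctionFinEquiv (fun i => ⟨v i / s, (Nat.div_lt_iff_lt_mul hs).2 (hv i)⟩),
    finFunctionFinEquiv (fun i => ⟨v i % s, Nat.mod_lt _ hs⟩))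

theorem win_inj {d : ℕ} (w s : ℕ) (hs : 0 < s) (v v' : Fin d → ℕ) (hv : ∀ i, v i < w * s)
    (hv' : ∀ i, v' i < w * s) (h : win w s hs v hv = win w s hs v' hv') : v = v' := by
  simp only [win, Prod.mk.injEq, EmbeddingLike.apply_eq_iff_eq] at h
  funext i
  have h1 := congrFun h.1 i
  have h2 := congrFun h.2 i
  simp only [Fin.mk.injEq] at h1 h2
  rw [← Nat.div_add_mod (v i) s, ← Nat.div_add_mod (v' i) s, h1, h2]

theorem win_fst_eq {d : ℕ} (w s : ℕ) (hs : 0 < s) (v v' : Fin d → ℕ) (hv : ∀ i, v i < w * s)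
    (hv' : ∀ i, v' i < w * s) : (win w s hs v hv).1 = (win w s hs v' hv').1 ↔
      ∀ i, v i / s = v' i / s := by
  simp only [win, EmbeddingLike.apply_eq_iff_eq]
  constructor
  · intro h i
    have := congrFun h i
    simpa using this
  · intro h
    funext i
    simpa using h i

theorem abs_sub_le_of_div_eq (s : ℕ) (hs0 : 0 < s) (u v : ℕ) (huv : u / s = v / s) :
    |(u : ℤ) - (v : ℤ)| ≤ (s : ℕ) := by
  have e1 := Nat.div_add_mod u s
  have e2 := Nat.div_add_mod v s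
  have e3 := Nat.mod_lt u hs0
  have e4 := Nat.mod_lt v hs0
  rw [huv] at e1
  generalize s * (v / s) = X at e1 e2
  generalize u % s = a at e1 e3
  generalize v % s = b at e2 e4
  rw [abs_le]
  constructor <;> omega

/-- The number of window indices near a given one. -/
theorem card_box (d w L : ℕ) (g₀ : Fin d → ℕ) :
    #(Finset.univ.filter (fun g : Fin d → Fin w =>
      ∀ i, (g i : ℕ) ≤ g₀ i + (L + 1) ∧ g₀ i ≤ (g i : ℕ) + (L + 1))) ≤ (2 * L + 3) ^ d := by
  classical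
  have h1 : Finset.univ.filter (fun g : Fin d → Fin w =>
      ∀ i, (g i : ℕ) ≤ g₀ i + (L + 1) ∧ g₀ i ≤ (g i : ℕ) + (L + 1)) ⊆
      Fintype.piFinset (fun i => Finset.univ.filter (fun a : Fin w =>
        (a : ℕ) ≤ g₀ i + (L + 1) ∧ g₀ i ≤ (a : ℕ) + (L + 1))) := by
    intro g hg
    rw [Fintype.mem_piFinset]
    intro i
    simp only [Finset.mem_filter, Finset.mem_univ, true_and] at hg ⊢
    exact hg i
  refine (Finset.card_le_card h1).trans ?_
  rw [Fintype.card_piFinset]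
  calc ∏ i : Fin d, #(Finset.univ.filter (fun a : Fin w =>
        (a : ℕ) ≤ g₀ i + (L + 1) ∧ g₀ i ≤ (a : ℕ) + (L + 1)))
      ≤ ∏ _i : Fin d, (2 * L + 3) := by
        refine Finset.prod_le_prod' fun i _ => ?_
        have h2 : #(Finset.univ.filter (fun a : Fin w =>
            (a : ℕ) ≤ g₀ i + (L + 1) ∧ g₀ i ≤ (a : ℕ) + (L + 1))) ≤
            #(Finset.Icc (g₀ i - (L + 1)) (g₀ i + (L + 1))) := by
          refine Finset.card_le_card_of_injOn (fun a => (a : ℕ)) ?_ ?_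
          · intro a ha
            simp only [Finset.coe_filter, Finset.mem_univ, true_and] at ha
            have ha' := ha
            simp only [Finset.coe_Icc, Set.mem_Icc]
            obtain ⟨h3, h4⟩ := ha'
            constructor <;> omega
          · intro a _ b _ hab
            exact Fin.ext hab
        refine h2.trans ?_
        rw [Nat.card_Icc]
        omega
    _ = (2 * L + 3) ^ d := by simp

/-- **Lipschitz theorem.** -/
theorem thomsen_of_lipschitz (d L : ℕ) (hd : 0 < d) (c : ℝ) (hc : 0 < c) : ∃ N₀ : ℕ,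
    ∀ N : ℕ, N₀ ≤ N →
    ∀ (S : Finset ((Fin d → Fin N) × (Fin d → Fin N)))
      (f : (Fin d → Fin N) → (Fin d → Fin N) → (Fin d → ℤ)),
      (∀ x ∈ S, ∀ y ∈ S, ∀ R : ℕ, (∀ i, |((x.1 i : ℕ) : ℤ) - ((y.1 i : ℕ) : ℤ)| ≤ R) →
        (∀ i, |((x.2 i : ℕ) : ℤ) - ((y.2 i : ℕ) : ℤ)| ≤ R) →
        ∀ i, |f x.1 x.2 i - f y.1 y.2 i| ≤ L * R) →
      (∀ x ∈ S, ∀ y ∈ S, f x.1 x.2 = f y.1 y.2 → (x.1 = y.1 ∨ x.2 = y.2) → x = y) →
      c * ((N : ℝ) ^ d) ^ 2 ≤ (#S : ℝ) →
      HasThomsen (S.image (fun x => (x.1, x.2, f x.1 x.2))) := by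
  classical
  set Λ : ℕ := 2 * L + 1 with hΛ
  have hΛ0 : (0 : ℝ) < (2 * Λ : ℕ) := by positivity
  obtain ⟨t₀, h0⟩ := thomsen_of_blocks (c / ((2 * Λ : ℕ) : ℝ) ^ (2 * d)) ((2 * L + 3 : ℕ) ^ d : ℕ)
    (by positivity) (by positivity)
  obtain ⟨m₀, h1⟩ := h0 ((t₀ + 1) ^ d) (by
    calc t₀ ≤ t₀ + 1 := Nat.le_succ _
      _ ≤ (t₀ + 1) ^ d := Nat.le_self_pow hd.ne' _)
  set s := t₀ + 1 with hs
  have hs0 : 0 < s := Nat.succ_pos _
  refine ⟨(m₀ + 1) * s, fun N hN S f hlip hinj hcard => ?_⟩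
  have hsN : s ≤ N := by nlinarith
  have hN0 : 0 < N := by omega
  set w₀ := N / s + 1 with hw₀
  have hw₀s : N < w₀ * s := by
    have := Nat.lt_mul_div_succ N hs0
    rw [hw₀, mul_comm _ s]
    exact this
  have hw₀s' : w₀ * s ≤ 2 * N := by
    have h2 : N / s * s ≤ N := Nat.div_mul_le_self _ _
    rw [hw₀, add_mul]
    omega
  set w := Λ * w₀ with hw
  have hSne : S.Nonempty := by
    rw [← Finset.card_pos]
    have h2 : (0 : ℝ) < (#S : ℝ) := by
      have : (0 : ℝ) < N := by exact_mod_cast hN0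
      exact lt_of_lt_of_le (by positivity) hcard
    exact_mod_cast h2
  obtain ⟨x₀, hx₀⟩ := hSne
  -- shifted values
  set F : (Fin d → ℤ) → Fin d → ℕ := fun z i => (z i - f x₀.1 x₀.2 i + L * N).toNat with hF
  have hlt : ∀ a b : Fin N, |((a : ℕ) : ℤ) - ((b : ℕ) : ℤ)| ≤ N := by
    intro a b
    rw [abs_le]
    have := a.2
    have := b.2
    constructor <;> omega
  have hrange : ∀ x ∈ S, ∀ i, |f x.1 x.2 i - f x₀.1 x₀.2 i| ≤ L * N := by
    intro x hx i
    exact hlip x hx x₀ hx₀ N (fun i => hlt _ _) (fun i => hlt _ _) i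
  have hFcast : ∀ x ∈ S, ∀ i, (F (f x.1 x.2) i : ℤ) = f x.1 x.2 i - f x₀.1 x₀.2 i + L * N := by
    intro x hx i
    have := (abs_le.1 (hrange x hx i)).1
    simp only [hF]
    rw [Int.toNat_of_nonneg]
    linarith
  have hws0 : 0 < w * s := by
    have : 0 < w₀ := Nat.succ_pos _
    rw [hw, hΛ]
    positivity
  have hFlt : ∀ x ∈ S, ∀ i, F (f x.1 x.2) i < w * s := by
    intro x hx i
    have h2 := (abs_le.1 (hrange x hx i)).2
    have h3 := hFcast x hx i
    have h4 : (F (f x.1 x.2) i : ℤ) ≤ 2 * L * N := by rw [h3]; linarith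
    have h5 : (F (f x.1 x.2) i) ≤ 2 * L * N := by exact_mod_cast h4
    have h6 : w * s = Λ * (w₀ * s) := by rw [hw]; ring
    rw [h6, hΛ]
    nlinarith
  -- values as elements of a finite box
  set G : (Fin d → ℤ) → Fin d → Fin (w * s) := fun z i =>
    if h : F z i < w * s then ⟨F z i, h⟩ else ⟨0, hws0⟩ with hG
  have hGval : ∀ x ∈ S, ∀ i, (G (f x.1 x.2) i : ℕ) = F (f x.1 x.2) i := by
    intro x hx i
    simp only [hG]
    rw [dif_pos (hFlt x hx i)]
  have hGinj : ∀ x ∈ S, ∀ y ∈ S, G (f x.1 x.2) = G (f y.1 y.2) → f x.1 x.2 = f y.1 y.2 := by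
    intro x hx y hy h
    funext i
    have h2 : (G (f x.1 x.2) i : ℕ) = (G (f y.1 y.2) i : ℕ) := by rw [h]
    rw [hGval x hx, hGval y hy] at h2
    have h3 := hFcast x hx i
    have h4 := hFcast y hy i
    rw [h2] at h3
    linarith
  have hNw : N ≤ w * s := by
    have h6 : w * s = Λ * (w₀ * s) := by rw [hw]; ring
    rw [h6, hΛ]
    nlinarith
  set φ : (Fin d → Fin N) → Fin (w ^ d) × Fin (s ^ d) := fun v =>
    win w s hs0 (fun i => (v i : ℕ)) (fun i => lt_of_lt_of_le (v i).2 hNw) with hφ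
  set ψ : (Fin d → Fin (w * s)) → Fin (w ^ d) × Fin (s ^ d) := fun v =>
    win w s hs0 (fun i => (v i : ℕ)) (fun i => (v i).2) with hψ
  have hφinj : Function.Injective φ := by
    intro v v' h
    have := win_inj _ _ _ _ _ _ _ h
    funext i
    exact Fin.ext (congrFun this i)
  have hψinj : Function.Injective ψ := by
    intro v v' h
    have := win_inj _ _ _ _ _ _ _ h
    funext i
    exact Fin.ext (congrFun this i)
  set H := S.image (fun x => (x.1, x.2, G (f x.1 x.2))) with hH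
  have hmem : ∀ a b z, (a, b, z) ∈ H ↔ (a, b) ∈ S ∧ G (f a b) = z := by
    intro a b z
    simp only [hH, Finset.mem_image, Prod.mk.injEq, Prod.exists]
    constructor
    · rintro ⟨a', b', h, rfl, rfl, h'⟩
      exact ⟨h, h'⟩
    · rintro ⟨h, h'⟩
      exact ⟨a, b, h, rfl, rfl, h'⟩
  have hdis : ExplicitDisjoint H := by
    refine ⟨?_, ?_, ?_⟩
    · intro x y z x' h2 h3
      rw [hmem] at h2 h3
      have h4 := hGinj _ h2.1 _ h3.1 (h2.2.trans h3.2.symm)
      have h5 := hinj _ h2.1 _ h3.1 h4 (Or.inr rfl)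
      exact congrArg Prod.fst h5
    · intro x y z y' h2 h3
      rw [hmem] at h2 h3
      have h4 := hGinj _ h2.1 _ h3.1 (h2.2.trans h3.2.symm)
      have h5 := hinj _ h2.1 _ h3.1 h4 (Or.inl rfl)
      exact congrArg Prod.snd h5
    · intro x y z z' h2 h3
      rw [hmem] at h2 h3
      rw [← h2.2, ← h3.2]
  have hHcard : #H = #S := by
    rw [hH, Finset.card_image_of_injective]
    rintro ⟨a, b⟩ ⟨a', b'⟩ h
    simp only [Prod.mk.injEq] at h
    rw [h.1, h.2.1]
  have hw0 : 0 < w := Nat.pos_of_mul_pos_right hws0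
  have hmm : m₀ ≤ w ^ d := by
    have h2 : m₀ ≤ w₀ := by
      have h3 : m₀ * s ≤ w₀ * s := by nlinarith
      exact Nat.le_of_mul_le_mul_right h3 hs0
    have h4 : w₀ ≤ w := by
      rw [hw, hΛ]
      nlinarith
    exact (h2.trans h4).trans (Nat.le_self_pow hd.ne' _)
  have hcard' : c / ((2 * Λ : ℕ) : ℝ) ^ (2 * d) * ((w ^ d : ℕ) : ℝ) ^ 2 * ((s ^ d : ℕ) : ℝ) ^ 2 ≤
      (#H : ℝ) := by
    rw [hHcard]
    refine le_trans ?_ hcard
    have h2 : w * s ≤ 2 * Λ * N := by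
      have h6 : w * s = Λ * (w₀ * s) := by rw [hw]; ring
      rw [h6]
      nlinarith
    have h3 : ((w * s : ℕ) : ℝ) ^ (2 * d) ≤ ((2 * Λ * N : ℕ) : ℝ) ^ (2 * d) := by
      apply pow_le_pow_left₀ (by positivity)
      exact_mod_cast h2
    have h4 : c / ((2 * Λ : ℕ) : ℝ) ^ (2 * d) * ((w ^ d : ℕ) : ℝ) ^ 2 * ((s ^ d : ℕ) : ℝ) ^ 2 =
        c / ((2 * Λ : ℕ) : ℝ) ^ (2 * d) * ((w * s : ℕ) : ℝ) ^ (2 * d) := by
      push_cast
      rw [mul_pow, ← pow_mul, ← pow_mul, mul_comm d 2]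
      ring
    have h5 : ((2 * Λ * N : ℕ) : ℝ) ^ (2 * d) =
        ((2 * Λ : ℕ) : ℝ) ^ (2 * d) * ((N : ℝ) ^ d) ^ 2 := by
      rw [← pow_mul, mul_comm d 2, ← mul_pow]
      push_cast
      ring
    rw [h4]
    refine (mul_le_mul_of_nonneg_left h3 (by positivity)).trans (le_of_eq ?_)
    rw [h5]
    field_simp
  have himg' : (#(H.image (fun e => ((φ e.1).1, (φ e.2.1).1, (ψ e.2.2).1))) : ℝ) ≤
      (((2 * L + 3 : ℕ) ^ d : ℕ) : ℝ) * ((w ^ d : ℕ) : ℝ) ^ 2 := by
    set I := H.image (fun e => ((φ e.1).1, (φ e.2.1).1, (ψ e.2.2).1)) with hI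
    have hfib : ∀ a ∈ I.image (fun z => (z.1, z.2.1)),
        #(I.filter (fun z => (z.1, z.2.1) = a)) ≤ (2 * L + 3) ^ d := by
      intro a ha
      rw [Finset.mem_image] at ha
      obtain ⟨z₀, hz₀, rfl⟩ := ha
      rw [hI, Finset.mem_image] at hz₀
      obtain ⟨e₀, he₀, rfl⟩ := hz₀
      obtain ⟨a₀, b₀, c₀⟩ := e₀
      rw [hmem] at he₀
      have hbox := card_box d w L (fun i => F (f a₀ b₀) i / s)
      refine le_trans (Finset.card_le_card_of_injOn
        (fun z => finFunctionFinEquiv.symm z.2.2) ?_ ?_) hbox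
      · intro z hz
        simp only [Finset.coe_filter] at hz
        obtain ⟨hz1, hz2⟩ := hz
        rw [hI, Finset.mem_image] at hz1
        obtain ⟨e, he, rfl⟩ := hz1
        obtain ⟨a₁, b₁, c₁⟩ := e
        rw [hmem] at he
        simp only [Prod.mk.injEq] at hz2
        simp only [hφ, win_fst_eq] at hz2
        simp only [Finset.coe_filter, Finset.mem_univ, true_and, Set.mem_ofPred_eq]
        intro i
        have hdiff : ∀ (u v : ℕ), u / s = v / s → |(u : ℤ) - (v : ℤ)| ≤ (s : ℕ) :=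
          fun u v huv => abs_sub_le_of_div_eq s hs0 u v huv
        have hl := hlip _ he.1 _ he₀.1 s (fun i => hdiff _ _ (hz2.1 i))
          (fun i => hdiff _ _ (hz2.2 i)) i
        simp only at hl
        have hv : ((finFunctionFinEquiv.symm (ψ c₁).1 : Fin d → Fin w) i : ℕ) =
            F (f a₁ b₁) i / s := by
          rw [← he.2]
          simp only [hψ, win, Equiv.symm_apply_apply]
          rw [hGval _ he.1]
        rw [hv]
        have k1 := hFcast _ he.1 i
        have k2 := hFcast _ he₀.1 i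
        have k3 : |(F (f a₁ b₁) i : ℤ) - (F (f a₀ b₀) i : ℤ)| ≤ L * s := by
          rw [k1, k2]
          have : f a₁ b₁ i - f x₀.1 x₀.2 i + L * N - (f a₀ b₀ i - f x₀.1 x₀.2 i + L * N) =
              f a₁ b₁ i - f a₀ b₀ i := by ring
          rw [this]
          exact hl
        have hq : ∀ u v : ℕ, (u : ℤ) - (v : ℤ) ≤ L * s → u / s ≤ v / s + (L + 1) := by
          intro u v huv
          have h7 : u ≤ v + L * s := by
            have : (u : ℤ) ≤ v + L * s := by linarith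
            exact_mod_cast this
          have h8 := Nat.div_add_mod v s
          have h9 := Nat.mod_lt v hs0
          have h10 : u < (v / s + (L + 1)) * s + s := by
            have : (v / s + (L + 1)) * s = s * (v / s) + L * s + s := by ring
            omega
          have h11 : u / s < v / s + (L + 1) + 1 := by
            rw [Nat.div_lt_iff_lt_mul hs0]
            calc u < (v / s + (L + 1)) * s + s := h10
              _ = (v / s + (L + 1) + 1) * s := by ring
          omega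
        rw [abs_le] at k3
        constructor
        · exact hq _ _ k3.2
        · exact hq _ _ (by linarith [k3.1])
      · intro z hz z' hz' hzz
        simp only [Finset.coe_filter] at hz hz'
        obtain ⟨_, hz2⟩ := hz
        obtain ⟨_, hz2'⟩ := hz'
        have h7 := hz2.trans hz2'.symm
        simp only [Prod.mk.injEq] at h7
        have h8 : z.2.2 = z'.2.2 := finFunctionFinEquiv.symm.injective hzz
        exact Prod.ext h7.1 (Prod.ext h7.2 h8)
    have h2 := Finset.card_le_mul_card_image I _ hfib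
    have h3 : #(I.image (fun z => (z.1, z.2.1))) ≤ w ^ d * w ^ d := by
      refine (Finset.card_le_univ _).trans ?_
      simp
    have h4 : #I ≤ (2 * L + 3) ^ d * (w ^ d * w ^ d) :=
      h2.trans (Nat.mul_le_mul_left _ h3)
    have h5 : (#I : ℝ) ≤ (((2 * L + 3) ^ d * (w ^ d * w ^ d) : ℕ) : ℝ) := by exact_mod_cast h4
    refine h5.trans (le_of_eq ?_)
    push_cast
    ring
  have key := h1 (w ^ d) hmm φ φ ψ hφinj hφinj hψinj H hdis hcard' himg'
  obtain ⟨x₁, x₂, x₃, y₁, y₂, y₃, z₁, z₂, z₃, a1, a2, a3, b1, b2, b3, c1, c2, c3,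
    e1, e2, e3, e4, e5, e6⟩ := key
  rw [hmem] at e1 e2 e3 e4 e5 e6
  have M : ∀ a b z, (a, b) ∈ S → f a b = z →
      (a, b, z) ∈ S.image (fun x => (x.1, x.2, f x.1 x.2)) := by
    intro a b z h h'
    rw [Finset.mem_image]
    exact ⟨(a, b), h, by rw [← h']⟩
  refine ⟨x₁, x₂, x₃, y₁, y₂, y₃, f x₁ y₁, f x₁ y₃, f x₂ y₃, a1, a2, a3, b1, b2, b3,
    ?_, ?_, ?_, M _ _ _ e1.1 rfl, M _ _ _ e2.1 ?_, M _ _ _ e3.1 rfl, M _ _ _ e4.1 rfl,
    M _ _ _ e5.1 ?_, M _ _ _ e6.1 ?_⟩
  · intro h; exact c1 (by rw [← e1.2, ← e3.2, h])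
  · intro h; exact c2 (by rw [← e1.2, ← e4.2, h])
  · intro h; exact c3 (by rw [← e3.2, ← e4.2, h])
  · exact hGinj _ e2.1 _ e1.1 (e2.2.trans e1.2.symm)
  · exact hGinj _ e5.1 _ e3.1 (e5.2.trans e3.2.symm)
  · exact hGinj _ e6.1 _ e4.1 (e6.2.trans e4.2.symm)

end Pool.Agent.MP_f6f4b2_co
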