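import Pool.Agent.Lib.MP_f6f4b2_co.Core

set_option autoImplicit false

open Finset

namespace Pool.Agent.MP_f6f4b2_co

open SimpleGraph TripartiteFromTriangles

/-- A linear 3-graph: a family of 3-element sets, any two of which share at most one vertex. -/
def IsLinear {V : Type*} [DecidableEq V] (H : Finset (Finset V)) : Prop :=
  (∀ e ∈ H, e.card = 3) ∧ ∀ e ∈ H, ∀ f ∈ H, e ≠ f → (e ∩ f).card ≤ 1

/-- `H` contains the grid: nine different vertices `g (i, j)` such that the three rows and the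
three columns are edges. -/
def HasGrid {V : Type*} [DecidableEq V] (H : Finset (Finset V)) : Prop :=
  ∃ g : Fin 3 × Fin 3 → V, Function.Injective g ∧
    (∀ i, ({g (i, 0), g (i, 1), g (i, 2)} : Finset V) ∈ H) ∧
    ∀ j, ({g (0, j), g (1, j), g (2, j)} : Finset V) ∈ H

/-- The abstract shape of the conclusion of `core`, for a tripartite family of triples. -/
def HasThomsen {α β γ : Type*} (H : Finset (α × β × γ)) : Prop :=
  ∃ (x₁ x₂ x₃ : α) (y₁ y₂ y₃ : β) (z₁ z₂ z₃ : γ),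
    x₁ ≠ x₂ ∧ x₁ ≠ x₃ ∧ x₂ ≠ x₃ ∧ y₁ ≠ y₂ ∧ y₁ ≠ y₃ ∧ y₂ ≠ y₃ ∧ z₁ ≠ z₂ ∧ z₁ ≠ z₃ ∧ z₂ ≠ z₃ ∧
    (x₁, y₁, z₁) ∈ H ∧ (x₂, y₂, z₁) ∈ H ∧ (x₁, y₃, z₂) ∈ H ∧ (x₂, y₃, z₃) ∈ H ∧
    (x₃, y₂, z₂) ∈ H ∧ (x₃, y₁, z₃) ∈ H

/-- Block version for tripartite families with arbitrary injective coordinates. -/
theorem thomsen_of_blocks (c K : ℝ) (hc : 0 < c) (hK : 0 < K) : ∃ t₀ : ℕ, ∀ t : ℕ, t₀ ≤ t →
    ∃ m₀ : ℕ, ∀ m : ℕ, m₀ ≤ m → ∀ {α β γ : Type} (fa : α → Fin m × Fin t)
      (fb : β → Fin m × Fin t) (fc : γ → Fin m × Fin t), Function.Injective fa →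
      Function.Injective fb → Function.Injective fc →
      ∀ H : Finset (α × β × γ), ExplicitDisjoint H →
      c * (m : ℝ) ^ 2 * (t : ℝ) ^ 2 ≤ (#H : ℝ) →
      (#(H.image (fun e => ((fa e.1).1, (fb e.2.1).1, (fc e.2.2).1))) : ℝ) ≤ K * (m : ℝ) ^ 2 →
      HasThomsen H := by
  classical
  obtain ⟨t₀, h0⟩ := core c K hc hK
  refine ⟨t₀, fun t ht => ?_⟩
  obtain ⟨m₀, h1⟩ := h0 t ht
  refine ⟨m₀, fun m hm α β γ fa fb fc hfa hfb hfc H hH hcard himg => ?_⟩
  set F : α × β × γ → (Fin m × Fin t) × (Fin m × Fin t) × (Fin m × Fin t) :=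
    fun e => (fa e.1, fb e.2.1, fc e.2.2) with hF
  have hFinj : Function.Injective F := by
    rintro ⟨a, b, c⟩ ⟨a', b', c'⟩ h
    simp only [hF, Prod.mk.injEq] at h
    rw [hfa h.1, hfb h.2.1, hfc h.2.2]
  have hmem : ∀ u v w, (u, v, w) ∈ H.image F ↔
      ∃ a b c, (a, b, c) ∈ H ∧ fa a = u ∧ fb b = v ∧ fc c = w := by
    intro u v w
    simp only [Finset.mem_image, hF, Prod.exists, Prod.mk.injEq]
  have hdis : ExplicitDisjoint (H.image F) := by
    refine ⟨?_, ?_, ?_⟩
    · intro u v w u' h h'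
      rw [hmem] at h h'
      obtain ⟨a, b, c, h, rfl, rfl, rfl⟩ := h
      obtain ⟨a', b', c', h', rfl, h2, h3⟩ := h'
      have e2 := hfb h2
      have e3 := hfc h3
      subst e2
      subst e3
      rw [hH.inj₀ h h']
    · intro u v w u' h h'
      rw [hmem] at h h'
      obtain ⟨a, b, c, h, rfl, rfl, rfl⟩ := h
      obtain ⟨a', b', c', h', h2, rfl, h3⟩ := h'
      have e2 := hfa h2
      have e3 := hfc h3
      subst e2
      subst e3
      rw [hH.inj₁ h h']
    · intro u v w u' h h'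
      rw [hmem] at h h'
      obtain ⟨a, b, c, h, rfl, rfl, rfl⟩ := h
      obtain ⟨a', b', c', h', h2, h3, rfl⟩ := h'
      have e2 := hfa h2
      have e3 := hfb h3
      subst e2
      subst e3
      rw [hH.inj₂ h h']
  have hc1 : #(H.image F) = #H := Finset.card_image_of_injective _ hFinj
  have hc2 : (H.image F).image blk =
      H.image (fun e => ((fa e.1).1, (fb e.2.1).1, (fc e.2.2).1)) := by
    rw [Finset.image_image]
    rfl
  obtain ⟨i, i', j, j', k, k', p, p', q, q', r, r', hi, hj, hk, hp, hq, hr,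
    e1, e2, e3, e4, e5, e6⟩ := h1 m hm (H.image F) hdis (by rw [hc1]; exact hcard)
      (by rw [hc2]; exact himg)
  rw [hmem] at e1 e2 e3 e4 e5 e6
  obtain ⟨x1, y1, z1, m1, a1, b1, c1⟩ := e1
  obtain ⟨x2, y2, z2, m2, a2, b2, c2⟩ := e2
  obtain ⟨x3, y3, z3, m3, a3, b3, c3⟩ := e3
  obtain ⟨x4, y4, z4, m4, a4, b4, c4⟩ := e4
  obtain ⟨x5, y5, z5, m5, a5, b5, c5⟩ := e5
  obtain ⟨x6, y6, z6, m6, a6, b6, c6⟩ := e6
  obtain rfl : z1 = z2 := hfc (c1.trans c2.symm)
  obtain rfl : x1 = x3 := hfa (a1.trans a3.symm)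
  obtain rfl : x2 = x4 := hfa (a2.trans a4.symm)
  obtain rfl : y3 = y4 := hfb (b3.trans b4.symm)
  obtain rfl : y2 = y5 := hfb (b2.trans b5.symm)
  obtain rfl : z3 = z5 := hfc (c3.trans c5.symm)
  obtain rfl : x5 = x6 := hfa (a5.trans a6.symm)
  obtain rfl : y1 = y6 := hfb (b1.trans b6.symm)
  obtain rfl : z4 = z6 := hfc (c4.trans c6.symm)
  refine ⟨x1, x2, x5, y1, y2, y3, z1, z3, z4, ?_, ?_, ?_, ?_, ?_, ?_, ?_, ?_, ?_,
    m1, m2, m3, m4, m5, m6⟩
  · rintro rfl; rw [a1] at a2; exact hp (by simpa using a2)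
  · rintro rfl; rw [a1] at a5; exact hi (by simpa using a5)
  · rintro rfl; rw [a2] at a5; exact hi (by simpa using (congrArg Prod.fst a5))
  · rintro rfl; rw [b1] at b2; exact hq (by simpa using (congrArg Prod.snd b2).symm)
  · rintro rfl; rw [b1] at b3; exact hj (by simpa using (congrArg Prod.fst b3))
  · rintro rfl; rw [b2] at b3; exact hj (by simpa using (congrArg Prod.fst b3))
  · rintro rfl; rw [c1] at c3; exact hk (by simpa using (congrArg Prod.fst c3))
  · rintro rfl; rw [c1] at c4; exact hk (by simpa using (congrArg Prod.fst c4))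
  · rintro rfl; rw [c3] at c4; exact hr (by simpa using (congrArg Prod.snd c4))

/-- Window bound for strictly increasing partial functions of two variables. -/
theorem monotone_blocks (m t : ℕ) (ht : 0 < t) (S : Finset (ℕ × ℕ)) (f : ℕ → ℕ → ℕ)
    (hS : ∀ x ∈ S, x.1 < m * t ∧ x.2 < m * t ∧ f x.1 x.2 < m * t)
    (hf : ∀ x ∈ S, ∀ y ∈ S, x.1 ≤ y.1 → x.2 ≤ y.2 → x ≠ y → f x.1 x.2 < f y.1 y.2) :
    #(S.image (fun x => (x.1 / t, x.2 / t, f x.1 x.2 / t))) ≤ 4 * m ^ 2 := by
  classical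
  have hdiv : ∀ a, a < m * t → a / t < m := fun a ha => (Nat.div_lt_iff_lt_mul ht).2 ha
  have h : #(S.image (fun x => (x.1 / t, x.2 / t, f x.1 x.2 / t))) ≤
      #(Finset.range (2 * m) ×ˢ Finset.range (2 * m)) := by
    refine Finset.card_le_card_of_injOn
      (fun w => (w.1 + (m - w.2.1), w.1 + w.2.2)) ?_ ?_
    · rintro ⟨i, j, l⟩ hw
      simp only [Finset.coe_image, Set.mem_image, Finset.mem_coe, Prod.mk.injEq] at hw
      obtain ⟨x, hx, rfl, rfl, rfl⟩ := hw
      obtain ⟨h1, h2, h3⟩ := hS x hx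
      have h4 := hdiv _ h1
      have h5 := hdiv _ h2
      have h6 := hdiv _ h3
      simp only [Finset.coe_product, Set.mem_prod, Finset.mem_coe, Finset.mem_range]
      have h7 : m - x.2 / t ≤ m := Nat.sub_le _ _
      constructor
      · linarith
      · linarith
    · rintro ⟨i, j, l⟩ hw ⟨i', j', l'⟩ hw' heq
      simp only [Finset.coe_image, Set.mem_image, Finset.mem_coe, Prod.mk.injEq] at hw hw' heq
      obtain ⟨x, hx, hxi, hxj, hxl⟩ := hw
      obtain ⟨y, hy, hyi, hyj, hyl⟩ := hw'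
      obtain ⟨h1, h2, h3⟩ := hS x hx
      obtain ⟨g1, g2, g3⟩ := hS y hy
      have h4 := hdiv _ h1
      have h5 := hdiv _ h2
      have g4 := hdiv _ g1
      have g5 := hdiv _ g2
      rw [hxi] at h4
      rw [hxj] at h5
      rw [hyi] at g4
      rw [hyj] at g5
      have key : ∀ x ∈ S, ∀ y ∈ S, x.1 / t < y.1 / t → x.2 / t < y.2 / t →
          f x.1 x.2 / t ≤ f y.1 y.2 / t := by
        intro x hx y hy hlt1 hlt2
        apply Nat.div_le_div_right
        have q1 : x.1 < y.1 := by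
          by_contra hcon
          push Not at hcon
          exact absurd (Nat.div_le_div_right hcon) (not_le.2 hlt1)
        have q2 : x.2 < y.2 := by
          by_contra hcon
          push Not at hcon
          exact absurd (Nat.div_le_div_right hcon) (not_le.2 hlt2)
        exact (hf x hx y hy q1.le q2.le (fun h => by rw [h] at q1; exact lt_irrefl _ q1)).le
      rcases lt_trichotomy i i' with hlt | heq' | hgt
      · have hj : j < j' := by omega
        have := key x hx y hy (by rw [hxi, hyi]; exact hlt) (by rw [hxj, hyj]; exact hj)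
        rw [hxl, hyl] at this
        omega
      · subst heq'
        have hj : j = j' := by omega
        have hl : l = l' := by omega
        rw [hj, hl]
      · have hj : j' < j := by omega
        have := key y hy x hx (by rw [hxi, hyi]; exact hgt) (by rw [hxj, hyj]; exact hj)
        rw [hxl, hyl] at this
        omega
  refine h.trans ?_
  simp only [Finset.card_product, Finset.card_range]
  nlinarith

end Pool.Agent.MP_f6f4b2_co
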