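import Pool.Agent.Lib.MP_f6f4b2_co.Lipschitz

set_option autoImplicit false

open Finset

namespace Pool.Agent.MP_f6f4b2_co

/-- The 3-partite 3-graph of a partial function of two variables: the vertices are the first
arguments, the second arguments and the values, and every `(x, y)` in `S` gives the edge
`{x, y, f x y}`. -/
def graphOf {α β γ : Type*} [DecidableEq α] [DecidableEq β] [DecidableEq γ] (S : Finset (α × β))
    (f : α → β → γ) : Finset (Finset (α ⊕ β ⊕ γ)) :=
  S.image (fun x => {Sum.inl x.1, Sum.inr (Sum.inl x.2), Sum.inr (Sum.inr (f x.1 x.2))})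

theorem hasGrid_graphOf {α β γ : Type*} [DecidableEq α] [DecidableEq β] [DecidableEq γ]
    (S : Finset (α × β)) (f : α → β → γ)
    (h : HasThomsen (S.image (fun x => (x.1, x.2, f x.1 x.2)))) : HasGrid (graphOf S f) := by
  classical
  obtain ⟨x₁, x₂, x₃, y₁, y₂, y₃, z₁, z₂, z₃, a1, a2, a3, b1, b2, b3, c1, c2, c3,
    e1, e2, e3, e4, e5, e6⟩ := h
  have key : ∀ a b c, (a, b, c) ∈ S.image (fun x => (x.1, x.2, f x.1 x.2)) →
      ({Sum.inl a, Sum.inr (Sum.inl b), Sum.inr (Sum.inr c)} : Finset (α ⊕ β ⊕ γ)) ∈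
        graphOf S f := by
    intro a b c habc
    rw [Finset.mem_image] at habc
    obtain ⟨x, hx, hxe⟩ := habc
    simp only [Prod.mk.injEq] at hxe
    obtain ⟨rfl, rfl, rfl⟩ := hxe
    exact Finset.mem_image_of_mem _ hx
  have f1 := key _ _ _ e1
  have f2 := key _ _ _ e2
  have f3 := key _ _ _ e3
  have f4 := key _ _ _ e4
  have f5 := key _ _ _ e5
  have f6 := key _ _ _ e6
  let X : α → α ⊕ β ⊕ γ := fun a => Sum.inl a
  let Y : β → α ⊕ β ⊕ γ := fun a => Sum.inr (Sum.inl a)
  let Z : γ → α ⊕ β ⊕ γ := fun a => Sum.inr (Sum.inr a)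
  let g : Fin 3 × Fin 3 → α ⊕ β ⊕ γ := fun p =>
    (![![Z z₁, X x₁, Y y₁], ![X x₂, Y y₃, Z z₃], ![Y y₂, Z z₂, X x₃]] :
      Fin 3 → Fin 3 → α ⊕ β ⊕ γ) p.1 p.2
  refine ⟨g, ?_, ?_, ?_⟩
  · rintro ⟨i, j⟩ ⟨i', j'⟩ hij
    fin_cases i <;> fin_cases j <;> fin_cases i' <;> fin_cases j' <;>
      simp [g, X, Y, Z] at hij ⊢ <;>
      first | exact absurd hij (by assumption) | exact absurd hij.symm (by assumption)
  · intro i
    fin_cases i
    · have : ({Z z₁, X x₁, Y y₁} : Finset (α ⊕ β ⊕ γ)) = {X x₁, Y y₁, Z z₁} := by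
        ext u; simp only [Finset.mem_insert, Finset.mem_singleton]; tauto
      simpa [g, this] using f1
    · simpa [g] using f4
    · have : ({Y y₂, Z z₂, X x₃} : Finset (α ⊕ β ⊕ γ)) = {X x₃, Y y₂, Z z₂} := by
        ext u; simp only [Finset.mem_insert, Finset.mem_singleton]; tauto
      simpa [g, this] using f5
  · intro j
    fin_cases j
    · have : ({Z z₁, X x₂, Y y₂} : Finset (α ⊕ β ⊕ γ)) = {X x₂, Y y₂, Z z₁} := by
        ext u; simp only [Finset.mem_insert, Finset.mem_singleton]; tauto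
      simpa [g, this] using f2
    · simpa [g] using f3
    · have : ({Y y₁, Z z₃, X x₃} : Finset (α ⊕ β ⊕ γ)) = {X x₃, Y y₁, Z z₃} := by
        ext u; simp only [Finset.mem_insert, Finset.mem_singleton]; tauto
      simpa [g, this] using f6

/-- A grid is a core on nine vertices. -/
theorem core_of_grid {V : Type*} [DecidableEq V] (H : Finset (Finset V)) (h : HasGrid H) :
    ∃ F ⊆ H, F.Nonempty ∧ (F.biUnion id).card ≤ 9 ∧
      ∀ v ∈ F.biUnion id, 2 ≤ (F.filter (fun e => v ∈ e)).card := by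
  obtain ⟨g, hg, hrow, hcol⟩ := h
  set R : Fin 3 → Finset V := fun i => {g (i, 0), g (i, 1), g (i, 2)} with hR
  set C : Fin 3 → Finset V := fun j => {g (0, j), g (1, j), g (2, j)} with hC
  have hmR : ∀ i v, v ∈ R i ↔ ∃ j, v = g (i, j) := by
    intro i v
    simp only [hR, Finset.mem_insert, Finset.mem_singleton, Fin.exists_fin_succ,
      Fin.succ_zero_eq_one, IsEmpty.exists_iff]
    simp
  have hmC : ∀ j v, v ∈ C j ↔ ∃ i, v = g (i, j) := by
    intro i v
    simp only [hC, Finset.mem_insert, Finset.mem_singleton, Fin.exists_fin_succ,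
      Fin.succ_zero_eq_one, IsEmpty.exists_iff]
    simp
  have hne : ∀ i j, R i ≠ C j := by
    intro i j h
    have h0 : ∀ l, g (i, l) ∈ C j := by
      intro l
      rw [← h, hmR]
      exact ⟨l, rfl⟩
    have h1 := h0 0
    have h2 := h0 1
    rw [hmC] at h1 h2
    obtain ⟨a, ha⟩ := h1
    obtain ⟨b, hb⟩ := h2
    have ha' := hg ha
    have hb' := hg hb
    simp only [Prod.mk.injEq] at ha' hb'
    have : (0 : Fin 3) = 1 := ha'.2.trans hb'.2.symm
    exact absurd this (by decide)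
  set F : Finset (Finset V) := (Finset.univ.image R) ∪ (Finset.univ.image C) with hF
  refine ⟨F, ?_, ?_, ?_, ?_⟩
  · intro e he
    rw [hF, Finset.mem_union, Finset.mem_image, Finset.mem_image] at he
    rcases he with ⟨i, _, rfl⟩ | ⟨j, _, rfl⟩
    · exact hrow i
    · exact hcol j
  · exact ⟨R 0, by rw [hF, Finset.mem_union]; left; exact Finset.mem_image_of_mem _ (Finset.mem_univ _)⟩
  · have hsub : F.biUnion id ⊆ (Finset.univ : Finset (Fin 3 × Fin 3)).image g := by
      intro v hv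
      rw [Finset.mem_biUnion] at hv
      obtain ⟨e, he, hve⟩ := hv
      rw [hF, Finset.mem_union, Finset.mem_image, Finset.mem_image] at he
      rw [Finset.mem_image]
      rcases he with ⟨i, _, rfl⟩ | ⟨j, _, rfl⟩
      · obtain ⟨j, rfl⟩ := (hmR i v).1 hve
        exact ⟨(i, j), Finset.mem_univ _, rfl⟩
      · obtain ⟨i, rfl⟩ := (hmC j v).1 hve
        exact ⟨(i, j), Finset.mem_univ _, rfl⟩
    refine (Finset.card_le_card hsub).trans (Finset.card_image_le.trans ?_)
    simp
  · intro v hv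
    rw [Finset.mem_biUnion] at hv
    obtain ⟨e, he, hve⟩ := hv
    have hex : ∃ i j, v = g (i, j) := by
      rw [hF, Finset.mem_union, Finset.mem_image, Finset.mem_image] at he
      rcases he with ⟨i, _, rfl⟩ | ⟨j, _, rfl⟩
      · obtain ⟨j, rfl⟩ := (hmR i v).1 hve
        exact ⟨i, j, rfl⟩
      · obtain ⟨i, rfl⟩ := (hmC j v).1 hve
        exact ⟨i, j, rfl⟩
    obtain ⟨i, j, rfl⟩ := hex
    have h1 : ({R i, C j} : Finset (Finset V)) ⊆ F.filter (fun e => g (i, j) ∈ e) := by
      intro e he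
      simp only [Finset.mem_insert, Finset.mem_singleton] at he
      rw [Finset.mem_filter, hF, Finset.mem_union]
      rcases he with rfl | rfl
      · exact ⟨Or.inl (Finset.mem_image_of_mem _ (Finset.mem_univ _)), (hmR _ _).2 ⟨j, rfl⟩⟩
      · exact ⟨Or.inr (Finset.mem_image_of_mem _ (Finset.mem_univ _)), (hmC _ _).2 ⟨i, rfl⟩⟩
    have h2 := Finset.card_le_card h1
    rwa [Finset.card_pair (hne i j)] at h2

end Pool.Agent.MP_f6f4b2_co
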